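import Pool.Agent.P.MP_4376e9_pr.Asymp

/-!
Q2 of MP_4376e9_pr: for every `k ≥ 2` the rate function of `C_{2k}`-freeness of `G(n,p)` in the
critical window exists for every `c > 0`, is real-analytic on `(0,∞)`, and is given by an
explicit formula.
-/

namespace Pool.Agent.Results.MP_4376e9_pr.EvenCycles
open Filter Topology Pool.Agent.P.MP_4376e9_pr

theorem result : ∀ k : ℕ, 2 ≤ k → ∃ φ : ℝ → ℝ,
    AnalyticOnNhd ℝ φ (Set.Ioi 0) ∧
    (∀ c : ℝ, 0 < c → Tendsto (fun n : ℕ =>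
      (n : ℝ) ^ (-(2 * (k : ℝ)) / (2 * (k : ℝ) - 1)) *
        Real.log ((SimpleGraph.binomialRandom (Fin n) (Set.projIcc 0 1 zero_le_one
            (c * (n : ℝ) ^ (-(2 * (k : ℝ) - 2) / (2 * (k : ℝ) - 1))))).real
          {G | (SimpleGraph.cycleGraph (2 * k)).Free G}))
      atTop (𝓝 (φ c))) ∧
    (∀ c x : ℝ, 0 < x → x * Real.exp (x ^ (2 * k - 1)) = c →
      φ c = -c / 2 + x / 2 + (2 * (k : ℝ) - 1) / (4 * (k : ℝ)) * x ^ (2 * k)) := by
  intro k hk
  obtain ⟨i, hi⟩ : ∃ i, 2 * k = i + 2 := ⟨2 * k - 2, by omega⟩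
  have hi1 : 1 ≤ i := by omega
  have hev : Even (i + 2) := hi ▸ even_two_mul k
  have hk' : 2 * (k : ℝ) = (i : ℝ) + 2 := by exact_mod_cast hi
  have hk1 : 2 * k - 1 = i + 1 := by omega
  have hi0 : (0 : ℝ) ≤ i := Nat.cast_nonneg i
  obtain ⟨X, hXa, hX⟩ := exists_root i
  have hphi : ∀ c x : ℝ, 0 < x → x * Real.exp (x ^ (i + 1)) = c →
      phiv i c x = -c / 2 + x / 2 + (2 * (k : ℝ) - 1) / (4 * (k : ℝ)) * x ^ (i + 2) := by
    intro c x hx0 hx
    unfold phiv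
    have : 4 * (k : ℝ) = 2 * ((i : ℝ) + 2) := by linarith
    rw [log_ratio hx0 hx, hk', this]
    field_simp
    ring
  refine ⟨fun c => -c / 2 + X c / 2 + (2 * (k : ℝ) - 1) / (4 * (k : ℝ)) * X c ^ (i + 2), ?_, ?_, ?_⟩
  · intro c hc
    have h := hXa c hc
    exact ((analyticAt_id.neg.div_const).add h.div_const).add (analyticAt_const.mul (h.pow _))
  · intro c hc
    obtain ⟨hx0, hx⟩ := hX c hc
    beta_reduce
    rw [← hphi c (X c) hx0 hx]
    set d : ℕ → ℝ := fun n => (n : ℝ) ^ (((i + 1 : ℕ) : ℝ)⁻¹) with hd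
    have hdt : Tendsto d atTop atTop :=
      (tendsto_rpow_atTop (by positivity)).comp tendsto_natCast_atTop_atTop
    have hdn : ∀ n : ℕ, d n ^ (i + 1) = n := fun n =>
      Real.rpow_inv_natCast_pow (Nat.cast_nonneg n) (by omega)
    have hpow : ∀ (n l : ℕ), (n : ℝ) ^ (-(l : ℝ) / ((i : ℝ) + 1)) = (d n ^ l)⁻¹ := by
      intro n l
      rw [hd]
      simp only
      rw [← Real.rpow_natCast, ← Real.rpow_mul (Nat.cast_nonneg n),
        ← Real.rpow_neg (Nat.cast_nonneg n)]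
      congr 1
      push_cast
      field_simp
    refine (limit_explicit hi1 hev hc hx0 hx hdt hdn).congr' ?_
    filter_upwards [hdt.eventually_ge_atTop 1, hdt.eventually_ge_atTop c] with n h1 h2
    have e1 : -(2 * (k : ℝ)) / (2 * (k : ℝ) - 1) = -((i + 2 : ℕ) : ℝ) / ((i : ℝ) + 1) := by
      rw [hk']; push_cast; congr 1; ring
    have e2 : -(2 * (k : ℝ) - 2) / (2 * (k : ℝ) - 1) = -((i : ℕ) : ℝ) / ((i : ℝ) + 1) := by
      rw [hk']; congr 1 <;> ring
    have hmem : c * (d n ^ i)⁻¹ ∈ Set.Icc (0 : ℝ) 1 := by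
      refine ⟨by positivity, ?_⟩
      rw [← div_eq_mul_inv, div_le_one (by positivity)]
      exact h2.trans (le_self_pow₀ h1 (by omega))
    rw [e1, e2, hpow, hpow, hi, Set.projIcc_of_mem _ hmem,
      prob_eq_Zf (show 2 ≤ i + 1 by omega), div_eq_mul_inv, div_eq_mul_inv, mul_comm]
  · intro c x hx0 hx
    rw [hk1] at hx
    have hc : 0 < c := hx ▸ mul_pos hx0 (Real.exp_pos _)
    have : X c = x := root_unique i (hX c hc).1 hx0 (by rw [(hX c hc).2, hx])
    simp only [this, hi]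

end Pool.Agent.Results.MP_4376e9_pr.EvenCycles
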